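import Pool.Agent.H18.HX.Targets

/-!
# Board hx_modules, row PTS: points of the hypersurface and of the variety
-/

set_option autoImplicit false

open MvPolynomial
open Pool.Agent.H12.ZD (pmap v O Res DenseOrbit NoInv)
open Pool.Agent.H18.HIT Pool.Agent.H18.HX

namespace Pool.Agent.H54.HX

section

variable {L N : ℕ} {k : Type} [Field k]

theorem eval_smul_hom {n : ℕ} {c : MvPolynomial (Fin n) k} {t : ℕ} (hc : c.IsHomogeneous t) (s : k)
    (x : Fin n → k) : eval (fun i => s * x i) c = s ^ t * eval x c := by
  rw [eval_eq, eval_eq, Finset.mul_sum]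
  refine Finset.sum_congr rfl fun e he => ?_
  have hd : e.degree = t := by
    by_contra h
    exact mem_support_iff.1 he (hc.coeff_eq_zero h)
  simp only [mul_pow, Finset.prod_mul_distrib]
  have h1 : ∏ i ∈ e.support, s ^ e i = s ^ t := by
    rw [Finset.prod_pow_eq_pow_sum]
    congr 1
  rw [h1]
  ring

theorem aeval_mul_hom {n : ℕ} {A : Type} [CommRing A] [Algebra k A] {c : MvPolynomial (Fin n) k}
    {t : ℕ} (hc : c.IsHomogeneous t) (s : A) (x : Fin n → A) :
    aeval (fun i => s * x i) c = s ^ t * aeval x c := by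
  rw [aeval_def, aeval_def, eval₂_eq, eval₂_eq, Finset.mul_sum]
  refine Finset.sum_congr rfl fun e he => ?_
  have hd : e.degree = t := by
    by_contra h
    exact mem_support_iff.1 he (hc.coeff_eq_zero h)
  simp only [mul_pow, Finset.prod_mul_distrib]
  have h1 : ∏ i ∈ e.support, s ^ e i = s ^ t := by
    rw [Finset.prod_pow_eq_pow_sum]
    congr 1
  rw [h1]
  ring

/-- congruent arguments -/
theorem aeval_congr_mod {n : ℕ} {A : Type} [CommRing A] [Algebra k A] (I : Ideal A)
    (f g : Fin n → A) (h : ∀ i, f i - g i ∈ I) (c : MvPolynomial (Fin n) k) :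
    aeval f c - aeval g c ∈ I := by
  rw [← Ideal.Quotient.mk_eq_mk_iff_sub_mem]
  have h1 : ∀ f : Fin n → A, Ideal.Quotient.mkₐ k I (aeval f c) =
      aeval (fun i => Ideal.Quotient.mkₐ k I (f i)) c := fun f => by
    rw [← MvPolynomial.comp_aeval_apply]
  have h2 : (fun i => Ideal.Quotient.mkₐ k I (f i)) = fun i => Ideal.Quotient.mkₐ k I (g i) := by
    funext i
    exact Ideal.Quotient.mk_eq_mk_iff_sub_mem _ _ |>.2 (h i)
  have h3 := h1 f
  rw [h2, ← h1 g] at h3
  exact h3

/-- the value of a composition -/
theorem eval_aeval {n m : ℕ} (a : Fin m → k) (l : Fin n → MvPolynomial (Fin m) k)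
    (q : MvPolynomial (Fin n) k) : eval a (aeval l q) = eval (fun i => eval a (l i)) q := by
  have h := MvPolynomial.comp_aeval_apply (R := k) l (aeval a : MvPolynomial (Fin m) k →ₐ[k] k) q
  simpa [MvPolynomial.coe_aeval_eq_eval] using h

theorem aeval_up (l : Fin (N + 1) → Po L k) (Δ : Po N k) :
    aeval l (up Δ) = aeval (fun j : Fin N => l j.succ) Δ := by
  unfold up
  rw [aeval_rename]
  rfl

theorem eval_up (y : Fin (N + 1) → k) (Δ : Po N k) :
    eval y (up Δ) = eval (fun j : Fin N => y j.succ) Δ := by
  unfold up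
  rw [eval_rename]
  rfl

end

theorem pf_PTS : T_PTS := by
  intro L N r δ k _ I _ l P Δ hP hI
  choose q hq hq' using fun i : Fin L => hP.den 1 (X i) (isHomogeneous_X k i)
  set D : Po L k := aeval (fun j : Fin N => l j.succ) Δ with hD
  refine ⟨fun a ha => ?_, fun y hy hΔ => ?_, fun a a' ha ha' hl hΔ => ?_⟩
  · rw [← eval_aeval]
    exact ha _ ((hP.ker P).2 dvd_rfl)
  · set s : k := eval (fun j : Fin N => y j.succ) Δ with hs
    -- the basic congruence
    have key : ∀ (t : ℕ) (c : Po L k), c.IsHomogeneous t →
        aeval l (aeval q c) - D ^ t * c ∈ I := by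
      intro t c hc
      have h1 : aeval l (aeval q c) = aeval (fun i => aeval l (q i)) c :=
        MvPolynomial.comp_aeval_apply (R := k) q (aeval l) c
      have h2 : D ^ t * c = aeval (fun i => D * X i) c := by
        rw [aeval_mul_hom hc, aeval_X_left_apply]
      rw [h1, h2]
      refine aeval_congr_mod I _ _ (fun i => ?_) c
      have := I.neg_mem (hq' i)
      rwa [neg_sub] at this
    have hqy : (fun i => eval y (q i)) = fun i => s * (eval y (q i) / s) := by
      funext i
      rw [mul_div_cancel₀ _ hΔ]
    refine ⟨fun i => eval y (q i) / s, fun c hc => ?_, fun i => ?_⟩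
    · have hom : ∀ t : ℕ, eval (fun i => eval y (q i) / s) (homogeneousComponent t c) = 0 := by
        intro t
        have hc1 := homogeneousComponent_isHomogeneous t c
        have h1 := key t _ hc1
        have h2 : aeval l (aeval q (homogeneousComponent t c)) ∈ I := by
          have h3 := I.add_mem h1 (I.mul_mem_left (D ^ t) (hI c hc t))
          rwa [sub_add_cancel] at h3
        obtain ⟨w, hw⟩ := (hP.ker _).1 h2
        have h4 : eval y (aeval q (homogeneousComponent t c)) = 0 := by
          rw [hw, map_mul, hy, zero_mul]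
        rw [eval_aeval, hqy, eval_smul_hom hc1] at h4
        exact (mul_eq_zero.1 h4).resolve_left (pow_ne_zero _ hΔ)
      rw [← sum_homogeneousComponent c, map_sum]
      exact Finset.sum_eq_zero fun t _ => hom t
    · have h1 := key 1 (l i) (hP.lin i)
      have h2 : D ^ 1 * l i = aeval l (up Δ * X i) := by
        rw [map_mul, aeval_up, aeval_X, pow_one]
      rw [h2, ← map_sub] at h1
      obtain ⟨w, hw⟩ := (hP.ker _).1 h1
      have h3 : eval y (aeval q (l i) - up Δ * X i) = 0 := by
        rw [hw, map_mul, hy, zero_mul]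
      rw [map_sub, map_mul, eval_up, eval_X, eval_aeval, hqy, eval_smul_hom (hP.lin i), pow_one,
        ← mul_sub] at h3
      exact sub_eq_zero.1 ((mul_eq_zero.1 h3).resolve_left hΔ)
  · have h1 : ∀ a : Fin L → k, Zer I a → ∀ i,
        eval (fun j : Fin N => eval a (l j.succ)) Δ * a i = eval (fun i => eval a (l i)) (q i) := by
      intro a ha i
      have h2 := ha _ (hq' i)
      rw [map_sub, map_mul, eval_X, hD, eval_aeval, eval_aeval] at h2
      exact sub_eq_zero.1 h2
    have h3 : (fun i => eval a (l i)) = fun i => eval a' (l i) := funext hl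
    funext i
    have h4 := h1 a ha i
    have h5 := h1 a' ha' i
    have h6 : (fun j : Fin N => eval a' (l j.succ)) = fun j : Fin N => eval a (l j.succ) :=
      funext fun j => (hl _).symm
    rw [h6, ← h3, ← h4] at h5
    exact (mul_left_cancel₀ hΔ h5).symm

end Pool.Agent.H54.HX
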